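import Pool.Agent.Lib.TWH3.Gam
import Pool.Agent.Lib.TWRZ.Cob
import Pool.Agent.Lib.TWCF.ShpU
import Pool.Agent.Lib.TWCU.Bstar
import Pool.Agent.Lib.TWLG76.Pos

/-!
# The frame of a motion, in the form of the right translates

* `frU_shift`: `w ↦ w - w₀`; `FrL`: the frame with `U s = δ(s, -w - s)`, `exists_frL`;
* `Psi`, `Lr`: `S w = w + X`, `S u = u + Y`: `L 0 = X 0 + X`, `L 1 = X 1 + Ψ(X 0)`,
  `Ψ = (Y - U(X)) + δ(X, ·)`;
* `FrL.ST_w`, `FrL.ST_u`: `S (T c w) = w + L 0 (c)`, `S (T c u) = u + U (L 0 (c)) + L 1 (c)`;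
* `orb`: the orbit polynomial of `Pa(w, u)`, `FrL.T_orb`, `FrL.S_orb`;
* `FrL.y_small`: `Y - U(X)` is small for all motions near to the identity.
-/

set_option autoImplicit false

namespace Pool.Agent.TWH3

open Pool.Agent.H15JM (RVal)
open Pool.Agent.D2 (Ctx0)
open Pool.Agent.D2P (clI mem_clI)
open Pool.Agent.TWM
open Pool.Agent.TWS
open Pool.Agent.TWCT (StrM eq_on_cadj SMo)
open Pool.Agent.TWRZ
open Pool.Agent.TWCF (TF)
open Pool.Agent.TWCY (pt)

universe u

variable {k Ω : Type u} [Field k] [Field Ω] [Algebra k Ω] {v : RVal Ω}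
  {W : IntermediateField k Ω} {w u : Ω} {T : k → Ω →ₐ[k] Ω} {U : k → Ω} {δ : k → k → k}
  {T₂ : k × k → Ω →ₐ[k] Ω}

/-! ### The coordinate `w - w₀` -/

theorem cadj_shift {w₀ : Ω} (hw₀ : w₀ ∈ W) : cadj v W (w - w₀) = cadj v W w :=
  cadj_sub_mem hw₀

theorem frU_shift (h : FrU v W w u T U δ T₂) {w₀ : Ω} (hw₀ : w₀ ∈ W) :
    FrU v W (w - w₀) u T U δ T₂ := by
  have e := cadj_shift (v := v) (w := w) hw₀
  refine ⟨h.tw.sub_mem hw₀, ?_, h.fixW, fun s => ?_, ?_, ?_, ?_, ?_, h.U0, h.bi, h.d0, h.d0',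
    h.cocy, h.exact_U, ?_, ?_, ?_, ?_, h.Tu, ?_⟩
  · rw [e]; exact h.famT
  · rw [map_sub, h.Tw, h.fixW s _ hw₀]; ring
  · rw [e]; exact h.id0
  · rw [e]; exact h.law₁
  · rw [e]; exact h.tu
  · rw [e]; exact h.pol
  · obtain ⟨w₁, hw₁, ι, hι, F, G, h1, h2⟩ := h.lm
    refine ⟨w₁ - w₀, sub_mem hw₁ hw₀, ι, hι, F, G, h1, fun s => ?_⟩
    rw [h2, sub_sub_sub_cancel_right]
  · rw [e]; exact h.att
  · rw [e]; exact h.fam
  · rw [e]; exact h.res
  · rw [e]; exact h.law

/-- The frame with `U s = δ(s, -w - s)`. -/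
structure FrL (v : RVal Ω) (W : IntermediateField k Ω) (w u : Ω) (T : k → Ω →ₐ[k] Ω) (U : k → Ω)
    (δ : k → k → k) (T₂ : k × k → Ω →ₐ[k] Ω) {ι : Type} [Fintype ι] (F G : ι → Polynomial k) :
    Prop extends FrU v W w u T U δ T₂ where
  hFG : ∀ s t, δ s t = ∑ i, (F i).eval s * (G i).eval t
  hU : ∀ s, U s = Ld F G (algebraMap k Ω s) (-w - algebraMap k Ω s)

theorem exists_frL (h : FrU v W w u T U δ T₂) : ∃ w₀ ∈ W, ∃ (ι : Type) (_ : Fintype ι)
    (F G : ι → Polynomial k), FrL v W (w - w₀) u T U δ T₂ F G := by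
  obtain ⟨w₀, hw₀, ι, hι, F, G, h1, h2⟩ := h.lm
  exact ⟨w₀, hw₀, ι, hι, F, G, ⟨frU_shift h hw₀, h1, fun s => by rw [h2, Lm_eq]⟩⟩

section frl

variable {ι : Type} [Fintype ι] {F G : ι → Polynomial k}

theorem FrL.U_pol (h : FrL v W w u T U δ T₂ F G) (s : k) :
    U s = (Upol F G w).eval (algebraMap k Ω s) := by rw [h.hU, eval_Upol]

/-! ### The right translates -/

/-- `Ψ = (Y - U(X)) + δ(X, ·)`. -/
noncomputable def Psi (F G : ι → Polynomial k) (w X Y : Ω) : Polynomial Ω :=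
  Polynomial.C (Y - (Upol F G w).eval X) + LamX F G X

/-- The right translate. -/
noncomputable def Lr (F G : ι → Polynomial k) (w X Y : Ω) : Fin 2 → MvPolynomial (Fin 2) Ω :=
  ![MvPolynomial.X 0 + MvPolynomial.C X,
    MvPolynomial.X 1 + Polynomial.aeval (MvPolynomial.X 0) (Psi F G w X Y)]

theorem eval_paeval (x : Fin 2 → Ω) (q : MvPolynomial (Fin 2) Ω) (P : Polynomial Ω) :
    MvPolynomial.eval x (Polynomial.aeval q P) = P.eval (MvPolynomial.eval x q) := by
  have h := Polynomial.aeval_algHom_apply (MvPolynomial.aeval x : MvPolynomial (Fin 2) Ω →ₐ[Ω] Ω)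
    q P
  rw [Polynomial.coe_aeval_eq_eval, ← MvPolynomial.coe_aeval_eq_eval] at *
  exact h.symm

theorem eval_Lr0 (X Y : Ω) (x : Fin 2 → Ω) :
    MvPolynomial.eval x (Lr F G w X Y 0) = x 0 + X := by
  simp [Lr]

theorem eval_Lr1 (X Y : Ω) (x : Fin 2 → Ω) :
    MvPolynomial.eval x (Lr F G w X Y 1) =
      x 1 + ((Y - (Upol F G w).eval X) + Ld F G X (x 0)) := by
  have e : Lr F G w X Y 1 = MvPolynomial.X 1 +
      Polynomial.aeval (MvPolynomial.X 0) (Psi F G w X Y) := rfl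
  rw [e, map_add, MvPolynomial.eval_X, eval_paeval, MvPolynomial.eval_X, Psi, Polynomial.eval_add,
    Polynomial.eval_C, eval_LamX]

/-- `L` as the algebra homomorphism of the plane lemma. -/
theorem aeval_Lr (X Y : Ω) (P : MvPolynomial (Fin 2) k) :
    MvPolynomial.aeval (Lr F G w X Y) P = TWLG76.LL X (Psi F G w X Y) P := rfl

theorem Lr_zero (X Y : Ω) :
    (fun i => MvPolynomial.eval (0 : Fin 2 → Ω) (Lr F G w X Y i)) =
      ![X, Y - (Upol F G w).eval X + Ld F G X 0] := by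
  funext i
  fin_cases i
  · show MvPolynomial.eval (0 : Fin 2 → Ω) (Lr F G w X Y 0) = X
    rw [eval_Lr0, Pi.zero_apply, zero_add]
  · show MvPolynomial.eval (0 : Fin 2 → Ω) (Lr F G w X Y 1) = _
    rw [eval_Lr1, Pi.zero_apply, Pi.zero_apply, zero_add]
    rfl

variable {S : Ω →ₐ[k] Ω} {X Y : Ω}

theorem FrL.T_w (h : FrL v W w u T U δ T₂ F G) (c : Fin 2 → k) :
    TF T₂ c w = w + algebraMap k Ω (c 0) := by
  have h1 := h.res (c 0, c 1) w (self_mem_cadj v W w)
  have h2 : TF T₂ c w = T₂ (c 0, c 1) w := rfl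
  rw [h2, h1, h.Tw]

theorem FrL.T_u (h : FrL v W w u T U δ T₂ F G) (c : Fin 2 → k) :
    TF T₂ c u = u + (Upol F G w).eval (algebraMap k Ω (c 0)) + algebraMap k Ω (c 1) := by
  have h2 : TF T₂ c u = T₂ (c 0, c 1) u := rfl
  rw [h2, h.Tu, h.U_pol]

theorem FrL.T_W (h : FrL v W w u T U δ T₂ F G) (c : Fin 2 → k) {f : Ω} (hf : f ∈ W) :
    TF T₂ c f = f := by
  have h1 := h.res (c 0, c 1) f (le_cadj v W w hf)
  have h2 : TF T₂ c f = T₂ (c 0, c 1) f := rfl
  rw [h2, h1, h.fixW _ _ hf]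

/-- `S (T c w) = w + L 0 (c)`. -/
theorem FrL.ST_w (h : FrL v W w u T U δ T₂ F G) (hw : S w = w + X) (c : Fin 2 → k) :
    S (TF T₂ c w) = w + MvPolynomial.eval (pt c) (Lr F G w X Y 0) := by
  rw [h.T_w, map_add, hw, AlgHom.commutes, eval_Lr0]
  show _ = w + (algebraMap k Ω (c 0) + X)
  ring

/-- **`S (T c u) = u + U (L 0 (c)) + L 1 (c)`.** -/
theorem FrL.ST_u [Infinite k] (h : FrL v W w u T U δ T₂ F G) (hw : S w = w + X)
    (hu : S u = u + Y) (c : Fin 2 → k) :
    S (TF T₂ c u) = u + (Upol F G w).eval (MvPolynomial.eval (pt c) (Lr F G w X Y 0)) +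
      MvPolynomial.eval (pt c) (Lr F G w X Y 1) := by
  rw [h.T_u, map_add, map_add, hu, AlgHom.commutes, eval_Lr0, eval_Lr1, eval_Upol, eval_Upol,
    eval_Upol, map_Ld, map_sub, map_neg, hw, AlgHom.commutes]
  have e0 : (pt c : Fin 2 → Ω) 0 = algebraMap k Ω (c 0) := rfl
  have e1 : (pt c : Fin 2 → Ω) 1 = algebraMap k Ω (c 1) := rfl
  rw [e0, e1]
  have h2 := Ld_cocy h.hFG h.cocy X (algebraMap k Ω (c 0)) (-w - X - algebraMap k Ω (c 0))
  have e2 : algebraMap k Ω (c 0) + (-w - X - algebraMap k Ω (c 0)) = -w - X := by ring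
  have e3 : -(w + X) - algebraMap k Ω (c 0) = -w - X - algebraMap k Ω (c 0) := by ring
  have e4 : -w - (algebraMap k Ω (c 0) + X) = -w - X - algebraMap k Ω (c 0) := by ring
  have e5 : algebraMap k Ω (c 0) + X = X + algebraMap k Ω (c 0) := add_comm _ _
  rw [e2] at h2
  rw [e3, e4, e5]
  linear_combination -h2

/-! ### Orbit polynomials -/

/-- The orbit polynomial of `Pa(w, u)`. -/
noncomputable def orb (F G : ι → Polynomial k) (w u : Ω) (Pa : MvPolynomial (Fin 2) Ω) :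
    MvPolynomial (Fin 2) Ω :=
  MvPolynomial.aeval (![MvPolynomial.C w + MvPolynomial.X 0,
    MvPolynomial.C u + MvPolynomial.X 1 +
      Polynomial.aeval (MvPolynomial.X 0) (Upol F G w)] : Fin 2 → MvPolynomial (Fin 2) Ω) Pa -
    MvPolynomial.C (MvPolynomial.eval ![w, u] Pa)

theorem eval_orb (Pa : MvPolynomial (Fin 2) Ω) (x : Fin 2 → Ω) :
    MvPolynomial.eval x (orb F G w u Pa) =
      MvPolynomial.eval ![w + x 0, u + x 1 + (Upol F G w).eval (x 0)] Pa -
        MvPolynomial.eval ![w, u] Pa := by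
  unfold orb
  rw [map_sub, MvPolynomial.eval_C, TWCU.eval_aeval]
  congr 2
  have e : (fun i => MvPolynomial.eval x ((![MvPolynomial.C w + MvPolynomial.X 0,
      MvPolynomial.C u + MvPolynomial.X 1 +
      Polynomial.aeval (MvPolynomial.X 0) (Upol F G w)] : Fin 2 → MvPolynomial (Fin 2) Ω) i)) =
      ![w + x 0, u + x 1 + (Upol F G w).eval (x 0)] := by
    funext i
    fin_cases i
    · simp
    · simp [eval_paeval]
  rw [e]

/-- `φ (P(x)) = P(φ x)` if `φ` fixes the coefficients. -/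
theorem map_eval_fix (φ : Ω →ₐ[k] Ω) {Pa : MvPolynomial (Fin 2) Ω}
    (hP : ∀ g, φ (MvPolynomial.coeff g Pa) = MvPolynomial.coeff g Pa) (x : Fin 2 → Ω) :
    φ (MvPolynomial.eval x Pa) = MvPolynomial.eval (fun i => φ (x i)) Pa := by
  rw [MvPolynomial.eval_eq', MvPolynomial.eval_eq', map_sum]
  refine Finset.sum_congr rfl fun g _ => ?_
  rw [map_mul, hP, map_prod]
  congr 1
  exact Finset.prod_congr rfl fun i _ => by rw [map_pow]

/-- **The orbit under `T`.** -/
theorem FrL.T_orb (h : FrL v W w u T U δ T₂ F G) {Pa : MvPolynomial (Fin 2) Ω}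
    (hP : ∀ g, MvPolynomial.coeff g Pa ∈ W) (c : Fin 2 → k) :
    TF T₂ c (MvPolynomial.eval ![w, u] Pa) =
      MvPolynomial.eval ![w, u] Pa + MvPolynomial.eval (pt c) (orb F G w u Pa) := by
  rw [map_eval_fix _ (fun g => h.T_W c (hP g)), eval_orb]
  have e : (fun i => TF T₂ c ((![w, u] : Fin 2 → Ω) i)) =
      ![w + pt (Ω := Ω) c 0, u + pt (Ω := Ω) c 1 + (Upol F G w).eval (pt (Ω := Ω) c 0)] := by
    funext i
    fin_cases i
    · exact h.T_w c
    · have e1 : u + pt (Ω := Ω) c 1 + (Upol F G w).eval (pt (Ω := Ω) c 0) =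
          u + (Upol F G w).eval (algebraMap k Ω (c 0)) + algebraMap k Ω (c 1) := by
        show u + algebraMap k Ω (c 1) + (Upol F G w).eval (algebraMap k Ω (c 0)) = _
        ring
      show TF T₂ c u = u + pt (Ω := Ω) c 1 + (Upol F G w).eval (pt (Ω := Ω) c 0)
      rw [e1]
      exact h.T_u c
  rw [e]
  ring

/-- **The orbit under `S T`.** -/
theorem FrL.S_orb [Infinite k] (h : FrL v W w u T U δ T₂ F G) (hw : S w = w + X)
    (hu : S u = u + Y) {Pa : MvPolynomial (Fin 2) Ω} (hP : ∀ g, MvPolynomial.coeff g Pa ∈ W)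
    (hS : ∀ g, S (MvPolynomial.coeff g Pa) = MvPolynomial.coeff g Pa) (c : Fin 2 → k) :
    S (TF T₂ c (MvPolynomial.eval ![w, u] Pa)) =
      MvPolynomial.eval ![w, u] Pa +
        MvPolynomial.eval (pt c) (MvPolynomial.aeval (Lr F G w X Y) (orb F G w u Pa)) := by
  rw [map_eval_fix _ (fun g => h.T_W c (hP g)), map_eval_fix _ hS, TWCU.eval_aeval, eval_orb]
  have e : (fun i => S (TF T₂ c ((![w, u] : Fin 2 → Ω) i))) =
      ![w + MvPolynomial.eval (pt c) (Lr F G w X Y 0),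
        u + MvPolynomial.eval (pt c) (Lr F G w X Y 1) +
        (Upol F G w).eval (MvPolynomial.eval (pt c) (Lr F G w X Y 0))] := by
    funext i
    fin_cases i
    · exact h.ST_w hw c
    · have h1 := h.ST_u hw hu c
      show S (TF T₂ c u) = u + MvPolynomial.eval (pt c) (Lr F G w X Y 1) +
        (Upol F G w).eval (MvPolynomial.eval (pt c) (Lr F G w X Y 0))
      rw [h1]
      ring
  rw [e]
  ring

/-! ### Coefficients -/

theorem aeval_mem_of {L : IntermediateField k Ω} {q : MvPolynomial (Fin 2) Ω}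
    (hq : ∀ g, MvPolynomial.coeff g q ∈ L) {P : Polynomial Ω} (hP : P ∈ PI L) (g : TWLY.Ex) :
    MvPolynomial.coeff g (Polynomial.aeval q P) ∈ L := by
  classical
  have hpow : ∀ n : ℕ, ∀ g, MvPolynomial.coeff g (q ^ n) ∈ L := by
    intro n
    induction n with
    | zero =>
      intro g
      rw [pow_zero, MvPolynomial.coeff_one]
      split_ifs
      · exact one_mem _
      · exact zero_mem _
    | succ n ih =>
      intro g
      rw [pow_succ, MvPolynomial.coeff_mul]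
      exact sum_mem fun x _ => mul_mem (ih _) (hq _)
  rw [Polynomial.aeval_eq_sum_range, MvPolynomial.coeff_sum]
  refine sum_mem fun i _ => ?_
  rw [MvPolynomial.coeff_smul, smul_eq_mul]
  exact mul_mem (hP i) (hpow i g)

theorem coeff_X_mem (L : IntermediateField k Ω) (i : Fin 2) (g : TWLY.Ex) :
    MvPolynomial.coeff g (MvPolynomial.X i : MvPolynomial (Fin 2) Ω) ∈ L := by
  classical
  rw [MvPolynomial.coeff_X]
  split_ifs
  · exact one_mem _
  · exact zero_mem _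

theorem coeff_C_mem {L : IntermediateField k Ω} {a : Ω} (ha : a ∈ L) (g : TWLY.Ex) :
    MvPolynomial.coeff g (MvPolynomial.C a : MvPolynomial (Fin 2) Ω) ∈ L := by
  classical
  rw [MvPolynomial.coeff_C]
  split_ifs
  · exact ha
  · exact zero_mem _

theorem aeval_memL {L : IntermediateField k Ω} {c : Ω} (hc : c ∈ L) (P : Polynomial k) :
    Polynomial.aeval c P ∈ L := by
  have h2 : Polynomial.aeval c P = ((Polynomial.aeval (⟨c, hc⟩ : L) P : L) : Ω) :=
    Polynomial.aeval_algHom_apply L.val (⟨c, hc⟩ : L) P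
  rw [h2]
  exact Subtype.coe_prop _

theorem LamX_mem {L : IntermediateField k Ω} (hX : X ∈ L) : LamX F G X ∈ PI L := by
  intro j
  rw [coeff_LamX]
  exact aeval_memL hX _

theorem Upol_mem {L : IntermediateField k Ω} (hw : w ∈ L) : Upol F G w ∈ PI L := by
  unfold Upol
  have h1 : ∀ P : Polynomial k, P.map (algebraMap k Ω) ∈ PI L := fun P j => by
    rw [Polynomial.coeff_map]
    exact L.algebraMap_mem _
  have hq : (Polynomial.C (-w) - Polynomial.X : Polynomial Ω) ∈ PI L :=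
    sub_mem (fun j => by
      rw [Polynomial.coeff_C]
      split_ifs
      · exact neg_mem hw
      · exact zero_mem _) (fun j => by
      rw [Polynomial.coeff_X]
      split_ifs
      · exact one_mem _
      · exact zero_mem _)
  refine sum_mem fun i _ => mul_mem (h1 _) ?_
  rw [Polynomial.comp_eq_sum_left, Polynomial.sum]
  refine sum_mem fun j _ => mul_mem (fun n => ?_) (pow_mem hq j)
  rw [Polynomial.coeff_C]
  split_ifs
  · exact h1 _ j
  · exact zero_mem _

theorem Psi_mem {L : IntermediateField k Ω} (hw : w ∈ L) (hX : X ∈ L) (hY : Y ∈ L) :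
    Psi F G w X Y ∈ PI L := by
  refine add_mem (fun j => ?_) (LamX_mem hX)
  rw [Polynomial.coeff_C]
  split_ifs
  · exact sub_mem hY (TWM.eval_mem (Upol_mem hw) hX)
  · exact zero_mem _

/-- The coefficients of `L`. -/
theorem Lr_mem {L : IntermediateField k Ω} (hw : w ∈ L) (hX : X ∈ L) (hY : Y ∈ L) (i : Fin 2)
    (g : TWLY.Ex) : MvPolynomial.coeff g (Lr F G w X Y i) ∈ L := by
  fin_cases i
  · show MvPolynomial.coeff g (MvPolynomial.X 0 + MvPolynomial.C X) ∈ L
    rw [MvPolynomial.coeff_add]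
    exact add_mem (coeff_X_mem L 0 g) (coeff_C_mem hX g)
  · show MvPolynomial.coeff g (MvPolynomial.X 1 +
      Polynomial.aeval (MvPolynomial.X 0) (Psi F G w X Y)) ∈ L
    rw [MvPolynomial.coeff_add]
    exact add_mem (coeff_X_mem L 1 g) (aeval_mem_of (coeff_X_mem L 0) (Psi_mem hw hX hY) g)

theorem coeff_mul_memL {L : IntermediateField k Ω} {f q : MvPolynomial (Fin 2) Ω}
    (hf : ∀ g, MvPolynomial.coeff g f ∈ L) (hq : ∀ g, MvPolynomial.coeff g q ∈ L) (g : TWLY.Ex) :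
    MvPolynomial.coeff g (f * q) ∈ L := by
  classical
  rw [MvPolynomial.coeff_mul]
  exact sum_mem fun x _ => mul_mem (hf _) (hq _)

theorem coeff_aeval_memL {L : IntermediateField k Ω} {Pa : MvPolynomial (Fin 2) Ω}
    (hP : ∀ g, MvPolynomial.coeff g Pa ∈ L) {q : Fin 2 → MvPolynomial (Fin 2) Ω}
    (hq : ∀ i g, MvPolynomial.coeff g (q i) ∈ L) (g : TWLY.Ex) :
    MvPolynomial.coeff g (MvPolynomial.aeval q Pa) ∈ L := by
  classical
  have hpow : ∀ (i : Fin 2) (n : ℕ), ∀ g, MvPolynomial.coeff g (q i ^ n) ∈ L := by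
    intro i n
    induction n with
    | zero =>
      intro g
      rw [pow_zero, MvPolynomial.coeff_one]
      split_ifs
      · exact one_mem _
      · exact zero_mem _
    | succ n ih =>
      intro g
      rw [pow_succ]
      exact coeff_mul_memL ih (hq i) g
  rw [Pa.as_sum, map_sum, MvPolynomial.coeff_sum]
  refine sum_mem fun m _ => ?_
  rw [MvPolynomial.aeval_monomial, Finsupp.prod_fintype _ _ (by simp), Fin.prod_univ_two,
    MvPolynomial.algebraMap_eq, MvPolynomial.coeff_C_mul]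
  exact mul_mem (hP m) (coeff_mul_memL (hpow 0 _) (hpow 1 _) g)

/-- The coefficients of the orbit polynomial. -/
theorem orb_mem {L : IntermediateField k Ω} (hw : w ∈ L) (hu : u ∈ L)
    {Pa : MvPolynomial (Fin 2) Ω} (hP : ∀ g, MvPolynomial.coeff g Pa ∈ L) (g : TWLY.Ex) :
    MvPolynomial.coeff g (orb F G w u Pa) ∈ L := by
  unfold orb
  rw [MvPolynomial.coeff_sub]
  refine sub_mem (coeff_aeval_memL hP (fun i g => ?_) g) (coeff_C_mem ?_ g)
  · fin_cases i
    · show MvPolynomial.coeff g (MvPolynomial.C w + MvPolynomial.X 0) ∈ L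
      rw [MvPolynomial.coeff_add]
      exact add_mem (coeff_C_mem hw g) (coeff_X_mem L 0 g)
    · show MvPolynomial.coeff g (MvPolynomial.C u + MvPolynomial.X 1 +
        Polynomial.aeval (MvPolynomial.X 0) (Upol F G w)) ∈ L
      rw [MvPolynomial.coeff_add, MvPolynomial.coeff_add]
      exact add_mem (add_mem (coeff_C_mem hu g) (coeff_X_mem L 1 g))
        (aeval_mem_of (coeff_X_mem L 0) (Upol_mem hw) g)
  · rw [MvPolynomial.eval_eq']
    refine sum_mem fun m _ => mul_mem (hP m) (prod_mem fun i _ => pow_mem ?_ _)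
    fin_cases i
    · exact hw
    · exact hu

/-! ### Sizes -/

theorem ge_paeval (hk : Ctx0 k v) {ε : ℝ} (hε : 0 ≤ ε) {a : Ω} (ha : v.Ge (-ε) a)
    (P : Polynomial k) {N : ℕ} (hN : P.natDegree ≤ N) :
    v.Ge (-(N * ε)) (Polynomial.aeval a P) := by
  rw [Polynomial.aeval_eq_sum_range]
  refine RVal.Ge.sum _ _ fun i hi => ?_
  rw [Algebra.smul_def]
  refine ((hk.ge _).mul (ge_pow ha i)).mono ?_
  have h1 : i ≤ N := by
    have := Finset.mem_range.1 hi
    omega
  have h2 : (i : ℝ) ≤ N := by exact_mod_cast h1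
  nlinarith

/-- The bound of the degrees. -/
noncomputable def dgFG (F G : ι → Polynomial k) : ℕ :=
  ∑ i, ((F i).natDegree + (G i).natDegree)

theorem dgFG_F (i : ι) : (F i).natDegree + (G i).natDegree ≤ dgFG F G :=
  Finset.single_le_sum (f := fun i => (F i).natDegree + (G i).natDegree)
    (fun _ _ => Nat.zero_le _) (Finset.mem_univ i)

theorem ge_Ld (hk : Ctx0 k v) {ε : ℝ} (hε : 0 ≤ ε) {a b : Ω} (ha : v.Ge (-ε) a)
    (hb : v.Ge (-ε) b) : v.Ge (-(dgFG F G * ε)) (Ld F G a b) := by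
  refine RVal.Ge.sum _ _ fun i _ => ?_
  refine ((ge_paeval hk hε ha (F i) le_rfl).mul (ge_paeval hk hε hb (G i) le_rfl)).mono ?_
  have h1 := dgFG_F (F := F) (G := G) i
  have h2 : ((F i).natDegree : ℝ) + (G i).natDegree ≤ dgFG F G := by exact_mod_cast h1
  nlinarith

/-- `Y - U(X)` in the coordinate `w - a`. -/
theorem FrL.y_eq [Infinite k] (h : FrL v W w u T U δ T₂ F G) (hw : S w = w + X) {a : Ω}
    (ha : S a = a) : S u - u - (Upol F G w).eval X =
      (S (u - Ld F G (-w) a) - (u - Ld F G (-w) a)) - Ld F G X (-(w - a) - X) := by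
  have h1 := Ld_cocy h.hFG h.cocy X (-w - X) a
  have e1 : X + (-w - X) = -w := by ring
  have e2 : -w - X + a = -(w - a) - X := by ring
  have e3 : -(w + X) = -w - X := by ring
  rw [e1, e2] at h1
  rw [eval_Upol, map_sub, map_Ld, map_neg, hw, ha, e3]
  linear_combination -h1

/-- **`Y - U(X)` is small** for all motions near to the identity. -/
theorem FrL.y_small [IsAlgClosed Ω] [Infinite k] (hk : Ctx0 k v) (h : FrL v W w u T U δ T₂ F G)
    {L : ℕ → IntermediateField k Ω} (hL : Monotone L) (hLW : ∀ J, L J ≤ W)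
    (hd : W ≤ clI v (⨆ J, L J)) {ε : ℝ} (hε : 0 < ε) :
    ∃ J₀ : ℕ, ∀ J ≥ J₀, ∀ (S : Ω →ₐ[k] Ω), IsoE v v S → (∀ a ∈ L J, S a = a) →
      v.Ge (-ε) (S w - w) ∧ v.Ge (-ε) (S u - u - (Upol F G w).eval (S w - w)) := by
  set N := dgFG F G with hN
  set e := ε / (2 * N + 3) with he
  have hN0 : (0 : ℝ) < 2 * N + 3 := by positivity
  have he0 : 0 < e := by positivity
  have hNe : 2 * N * e + 3 * e = ε := by
    rw [he]
    field_simp
  have hNp : 0 ≤ (N : ℝ) * e := by positivity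
  -- the chain
  have hch : ∀ f ∈ W, ∀ r : ℝ, ∃ J, ∃ g ∈ L J, v.Ge r (f - g) := by
    intro f hf r
    obtain ⟨x₀, h2, h3⟩ := (mem_clI.1 (hd hf)) r
    have h2' : x₀ ∈ ((⨆ n, L n : IntermediateField k Ω) : Set Ω) := h2
    rw [IntermediateField.coe_iSup_of_directed hL.directed_le, Set.mem_iUnion] at h2'
    obtain ⟨J, h4⟩ := h2'
    exact ⟨J, x₀, h4, h3⟩
  obtain ⟨w₁, hw₁, h1⟩ := h.tw.lim e he0
  rw [zero_sub] at h1
  obtain ⟨J₁, a, haJ, h2⟩ := hch w₁ hw₁ 0
  have haW := hLW J₁ haJ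
  have hwa : v.Ge (-e) (w - a) := by
    have e1 : w - a = (w - w₁) + (w₁ - a) := by ring
    rw [e1]
    exact h1.add (h2.mono (by linarith))
  have hx : v.Ge (-e) (-(w - a)) := hwa.neg
  -- the element `u - δ(-w, a)` is moved by small amounts
  have hC := le_cadj v W w
  have haC : Ld F G (-w) a ∈ cadj v W w :=
    Ld_mem (neg_mem (self_mem_cadj v W w)) (hC haW)
  obtain ⟨θ, hθ, h3⟩ := (h.tu.sub_mem haC).lim e he0
  rw [zero_sub] at h3
  have hTθ : ∀ s : k, v.Ge (-(N * e + e)) (T s θ - θ) := by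
    intro s
    have h4 : T₂ (s, 0) (u - Ld F G (-w) a) - (u - Ld F G (-w) a) =
        Ld F G (algebraMap k Ω s) (-(w - a) - algebraMap k Ω s) := by
      rw [map_sub, h.Tu, h.res _ _ haC, map_Ld, map_neg, h.Tw, h.fixW _ _ haW, h.hU, map_zero]
      have h5 := Ld_cocy h.hFG h.cocy (algebraMap k Ω s) (-w - algebraMap k Ω s) a
      have e1 : algebraMap k Ω s + (-w - algebraMap k Ω s) = -w := by ring
      have e2 : -w - algebraMap k Ω s + a = -(w - a) - algebraMap k Ω s := by ring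
      have e3 : -(w + algebraMap k Ω s) = -w - algebraMap k Ω s := by ring
      rw [e1, e2] at h5
      rw [e3]
      linear_combination h5
    have h5 : v.Ge (-(N * e)) (Ld F G (algebraMap k Ω s) (-(w - a) - algebraMap k Ω s)) :=
      ge_Ld hk he0.le ((hk.ge s).mono (by linarith))
        (hx.sub ((hk.ge s).mono (by linarith)))
    have e1 : T s θ - θ = (T₂ (s, 0) (u - Ld F G (-w) a) - (u - Ld F G (-w) a)) -
        (T₂ (s, 0) (u - Ld F G (-w) a - θ) - (u - Ld F G (-w) a - θ)) := by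
      have e2 : T s θ = T₂ (s, 0) θ := (h.res (s, 0) θ hθ).symm
      have e3 : T₂ (s, 0) (u - Ld F G (-w) a - θ) =
          T₂ (s, 0) (u - Ld F G (-w) a) - T₂ (s, 0) θ := map_sub _ _ _
      rw [e2, e3]
      ring
    rw [e1, h4]
    have h6 : v.Ge (-(N * e + e)) (T₂ (s, 0) (u - Ld F G (-w) a - θ)) :=
      ((h.fam.iso _).ge_iff.2 h3).mono (by linarith)
    exact (h5.mono (by linarith)).sub (h6.sub (h3.mono (by linarith)))
  obtain ⟨f, hf, h6⟩ := small_mov hk h.tw h.famT.iso h.fixW h.Tw hθ hTθ he0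
  obtain ⟨J₂, f₂, hf₂, h7⟩ := hch f hf 0
  have h8 : v.Ge (-(N * e + 2 * e)) (u - Ld F G (-w) a - f₂) := by
    have e1 : u - Ld F G (-w) a - f₂ = (u - Ld F G (-w) a - θ) + (θ - f) + (f - f₂) := by ring
    rw [e1]
    exact ((h3.mono (by linarith)).add (h6.mono (by linarith))).add (h7.mono (by linarith))
  refine ⟨max J₁ J₂, fun J hJ S hS hfix => ?_⟩
  have haS : S a = a := hfix a (hL (le_trans (le_max_left _ _) hJ) haJ)
  have hfS : S f₂ = f₂ := hfix f₂ (hL (le_trans (le_max_right _ _) hJ) hf₂)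
  have hwS : v.Ge (-e) (S w - w) := by
    have e1 : S w - w = S (w - a) - (w - a) := by rw [map_sub, haS]; ring
    rw [e1]
    exact (hS.ge_iff.2 hwa).sub hwa
  refine ⟨hwS.mono (by linarith), ?_⟩
  rw [h.y_eq (X := S w - w) (by ring) haS]
  have e1 : S (u - Ld F G (-w) a) - (u - Ld F G (-w) a) =
      S (u - Ld F G (-w) a - f₂) - (u - Ld F G (-w) a - f₂) := by
    rw [map_sub S (u - Ld F G (-w) a) f₂, hfS]
    ring
  rw [e1]
  refine RVal.Ge.sub ?_ ?_
  · exact ((hS.ge_iff.2 h8).sub h8).mono (by linarith)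
  · exact (ge_Ld hk he0.le hwS (hx.sub hwS)).mono (by linarith)

/-- The sizes of the coefficients of `Ψ`. -/
theorem ge_coeff_Psi (hk : Ctx0 k v) {ε : ℝ} (hε : 0 ≤ ε) {w X Y : Ω} (hX : v.Ge (-ε) X)
    (hy : v.Ge (-ε) (Y - (Upol F G w).eval X)) (j : ℕ) :
    v.Ge (-((dgFG F G + 1) * ε)) ((Psi F G w X Y).coeff j) := by
  have hN : (0 : ℝ) ≤ dgFG F G := Nat.cast_nonneg _
  rw [Psi, Polynomial.coeff_add, Polynomial.coeff_C]
  refine RVal.Ge.add ?_ ?_
  · split_ifs
    · exact hy.mono (by nlinarith)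
    · exact RVal.Ge.zero
  · rw [LamX, Polynomial.finsetSum_coeff]
    refine RVal.Ge.sum _ _ fun i _ => ?_
    rw [Polynomial.coeff_C_mul, Polynomial.coeff_map]
    have h1 := dgFG_F (F := F) (G := G) i
    have h2 := (ge_paeval hk hε hX (F i) (N := dgFG F G) (by omega)).mul (hk.ge ((G i).coeff j))
    exact h2.mono (by nlinarith)

theorem coeff_Psi_succ (w X Y : Ω) (j : ℕ) : (Psi F G w X Y).coeff (j + 1) =
    Polynomial.aeval X (∑ i, Polynomial.C ((G i).coeff (j + 1)) * F i) := by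
  rw [Psi, Polynomial.coeff_add, Polynomial.coeff_C, if_neg (Nat.succ_ne_zero j), zero_add,
    coeff_LamX]

theorem natDegree_Psi (w X Y : Ω) : (Psi F G w X Y).natDegree ≤ dgFG F G := by
  refine (Polynomial.natDegree_add_le _ _).trans (max_le ?_ ?_)
  · rw [Polynomial.natDegree_C]
    exact Nat.zero_le _
  · refine (natDegree_LamX X).trans (Finset.sum_le_sum fun i _ => ?_)
    omega

end frl

end Pool.Agent.TWH3
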