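import Pool.Agent.Lib.TWH3.Grid

/-!
# The relation (h3), coefficientwise

`y ∈ Ω²` is a position, `y h` its right translate by `h ∈ k²`, `T` the isometry which belongs to `h`,
`T y` the position with `h (T y) = y h`; `Z` is the shape of `z`, `Za` the attained displacement.

* `h3_pt`: (b) at `y`, its image under `T` and the cocycle relation (c) at `T y` give
  `|P(ζ(h)) + G(y h) - G(y)| ≤ r`, `ζ(h) = T Za - Z(y h) + Z(h) - (Za - Z(y))`;
* `h3_grid`: the relation for all `h` of a finite grid gives the relation for the coefficients;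
* `gtN_grid`: the same for `N(y h)`.
-/

set_option autoImplicit false

open MvPolynomial

namespace Pool.Agent.TWH3

open Pool.Agent.H15JM (RVal)
open Pool.Agent.LU1 (VPos)
open Pool.Agent.D2 (Ctx0)
open Pool.Agent.TWM
open Pool.Agent.TWS (IsoE)
open Pool.Agent.TWLY
open Pool.Agent.TWCY

universe u

variable {k Ω : Type u} [Field k] [Field Ω] [Algebra k Ω] {v : RVal Ω}

/-! ### The right translates -/

/-- The right translate of the position `y`. -/
noncomputable def rt (k : Type u) {Ω : Type u} [Field k] [Field Ω] [Algebra k Ω] (y : Fin 2 → Ω)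
    (Φ : Polynomial Ω) : MvPolynomial (Fin 2) k →ₐ[k] MvPolynomial (Fin 2) Ω :=
  aeval ![X 0 + C (y 0), X 1 + C (y 1) + Polynomial.aeval (X 0) Φ]

/-- The position `y h`. -/
noncomputable def yh (y : Fin 2 → Ω) (Φ : Polynomial Ω) (h : Fin 2 → k) : Fin 2 → Ω :=
  ![algebraMap k Ω (h 0) + y 0, algebraMap k Ω (h 1) + y 1 + Φ.eval (algebraMap k Ω (h 0))]

theorem eval_rt (y : Fin 2 → Ω) (Φ : Polynomial Ω) (h : Fin 2 → k) (G : MvPolynomial (Fin 2) k) :
    eval (pt h) (rt k y Φ G) = aeval (yh y Φ h) G := by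
  have h1 : ((aeval (pt (Ω := Ω) h) : MvPolynomial (Fin 2) Ω →ₐ[Ω] Ω).restrictScalars k).comp
      (rt k y Φ) = aeval (yh y Φ h) := by
    apply MvPolynomial.algHom_ext
    intro i
    rw [AlgHom.comp_apply, rt, aeval_X, aeval_X, AlgHom.restrictScalars_apply]
    fin_cases i
    · simp [yh, pt]
    · have e : aeval (pt (Ω := Ω) h) (Polynomial.aeval (X 0 : MvPolynomial (Fin 2) Ω) Φ) =
          Φ.eval (algebraMap k Ω (h 0)) := by
        rw [← Polynomial.aeval_algHom_apply, aeval_X, Polynomial.coe_aeval_eq_eval]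
        rfl
      simp only [Fin.mk_one, Matrix.cons_val_one, Matrix.cons_val_fin_one, map_add, aeval_X,
        aeval_C, e]
      simp [yh, pt]
  have h2 := DFunLike.congr_fun h1 G
  rw [AlgHom.comp_apply, AlgHom.restrictScalars_apply] at h2
  rw [← h2, ← coe_aeval_eq_eval]
  rfl

theorem totalDegree_paeval (Φ : Polynomial Ω) :
    (Polynomial.aeval (X 0 : MvPolynomial (Fin 2) Ω) Φ).totalDegree ≤ Φ.natDegree := by
  rw [Polynomial.aeval_eq_sum_range]
  refine totalDegree_finsetSum_le fun i hi => ?_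
  refine (totalDegree_smul_le _ _).trans ?_
  rw [totalDegree_X_pow]
  have := Finset.mem_range.1 hi
  omega

theorem totalDegree_rt {y : Fin 2 → Ω} {Φ : Polynomial Ω} {b : ℕ} (hb : Φ.natDegree ≤ b)
    (G : MvPolynomial (Fin 2) k) : (rt k y Φ G).totalDegree ≤ G.totalDegree * (b + 1) := by
  conv_lhs => rw [G.as_sum, map_sum]
  refine totalDegree_finsetSum_le fun m hm => ?_
  rw [rt, aeval_monomial, Finsupp.prod_fintype _ _ (by simp), Fin.prod_univ_two,
    IsScalarTower.algebraMap_apply k Ω (MvPolynomial (Fin 2) Ω), algebraMap_eq]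
  have h0 : (X 0 + C (y 0) : MvPolynomial (Fin 2) Ω).totalDegree ≤ b + 1 := by
    refine (totalDegree_add _ _).trans (max_le ?_ ?_)
    · rw [totalDegree_X]; omega
    · rw [totalDegree_C]; omega
  have h1 : (X 1 + C (y 1) + Polynomial.aeval (X 0) Φ : MvPolynomial (Fin 2) Ω).totalDegree ≤
      b + 1 := by
    refine (totalDegree_add _ _).trans (max_le ((totalDegree_add _ _).trans (max_le ?_ ?_)) ?_)
    · rw [totalDegree_X]; omega
    · rw [totalDegree_C]; omega
    · exact (totalDegree_paeval Φ).trans (by omega)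
  have hG : m 0 + m 1 ≤ G.totalDegree := by
    have h2 := le_totalDegree hm
    rw [Finsupp.sum_fintype _ _ (fun _ => rfl), Fin.sum_univ_two] at h2
    exact h2
  simp only [Matrix.cons_val_zero, Matrix.cons_val_one, Matrix.cons_val_fin_one]
  refine (totalDegree_mul _ _).trans ?_
  rw [totalDegree_C, zero_add]
  refine (totalDegree_mul _ _).trans ?_
  calc _ ≤ m 0 * (b + 1) + m 1 * (b + 1) := by
        refine Nat.add_le_add ((totalDegree_pow _ _).trans ?_) ((totalDegree_pow _ _).trans ?_)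
        · exact Nat.mul_le_mul_left _ h0
        · exact Nat.mul_le_mul_left _ h1
    _ = (m 0 + m 1) * (b + 1) := by ring
    _ ≤ _ := Nat.mul_le_mul_right _ hG

theorem lt_of_totalDegree {f : MvPolynomial (Fin 2) Ω} {n : ℕ} (h : f.totalDegree < n) :
    ∀ m ∈ f.support, ∀ i, m i < n := by
  intro m hm i
  have h2 := le_totalDegree hm
  rw [Finsupp.sum_fintype _ _ (fun _ => rfl), Fin.sum_univ_two] at h2
  fin_cases i
  · show m 0 < n
    omega
  · show m 1 < n
    omega

section PP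

variable {p : ℕ} {κ : ℕ → k} {t : ℕ}

theorem totalDegree_PP (f : MvPolynomial (Fin 2) Ω) (hp : 1 ≤ p) :
    (PP p κ t f).totalDegree ≤ p ^ (t + 1) * f.totalDegree := by
  unfold PP
  refine totalDegree_finsetSum_le fun i hi => ?_
  rw [IsScalarTower.algebraMap_apply k Ω (MvPolynomial (Fin 2) Ω), algebraMap_eq]
  refine (totalDegree_mul _ _).trans ?_
  rw [totalDegree_C, zero_add]
  refine (totalDegree_pow _ _).trans (Nat.mul_le_mul_right _ ?_)
  have := Finset.mem_range.1 hi
  exact Nat.pow_le_pow_right hp (by omega)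

theorem eval_PP' (X : Fin 2 → Ω) (f : MvPolynomial (Fin 2) Ω) :
    eval X (PP p κ t f) = PP p κ t (eval X f) := by
  have h := PP_map (p := p) (κ := κ) (t := t)
    ((aeval X : MvPolynomial (Fin 2) Ω →ₐ[Ω] Ω).restrictScalars k) f
  simpa [AlgHom.restrictScalars_apply, coe_aeval_eq_eval] using h

theorem ge_PP0 (hk : Ctx0 k v) {x : Ω} (hx : v.Ge 0 x) : v.Ge 0 (PP p κ t x) := by
  unfold PP
  refine RVal.Ge.sum _ _ fun i _ => ?_
  have h1 := (hk.ge (κ i)).mul (TWM.ge_pow hx (p ^ (i + 1)))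
  refine h1.mono ?_
  rw [mul_zero, add_zero]

variable [Fact p.Prime] [CharP Ω p]

/-- **(h3) at one point.** -/
theorem h3_pt (hk : Ctx0 k v) {T : Ω →ₐ[k] Ω} (hT : IsoE v v T) {G lam : MvPolynomial (Fin 2) k}
    {Z : MvPolynomial (Fin 2) Ω} {y gh : Fin 2 → Ω} {h : Fin 2 → k} {Za : Ω} {ρ : ℝ}
    (hρ : ρ ≤ 0) (hb : v.Ge ρ (PP p κ t (Za - eval y Z) + aeval y G))
    (hc : v.Ge ρ (aeval gh G - aeval (fun i => T (y i)) G - algebraMap k Ω (eval h G) +
      PP p κ t (aeval (fun i => T (y i)) lam)))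
    (hl : v.Ge 0 (T (eval y Z) + eval (pt h) Z - eval gh Z - aeval (fun i => T (y i)) lam)) :
    v.Ge ρ (PP p κ t (T Za - eval gh Z + eval (pt h) Z - (Za - eval y Z)) + aeval gh G -
      aeval y G) := by
  have h1 : v.Ge ρ (PP p κ t (T Za - T (eval y Z)) + aeval (fun i => T (y i)) G) := by
    have h2 := hT.ge_iff.2 hb
    rw [map_add, PP_map, map_sub] at h2
    have e : T (aeval y G) = aeval (fun i => T (y i)) G := by
      have := MvPolynomial.comp_aeval (R := k) (f := y) T
      exact DFunLike.congr_fun this G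
    rwa [e] at h2
  set l := aeval (fun i => T (y i)) lam with hl0
  have h3 := (ge_PP0 (p := p) (κ := κ) (t := t) hk hl).mono hρ
  have h4 : v.Ge ρ (algebraMap k Ω (eval h G)) := (hk.ge _).mono hρ
  have e : PP p κ t (T Za - eval gh Z + eval (pt h) Z - (Za - eval y Z)) + aeval gh G -
      aeval y G =
      (PP p κ t (T Za - T (eval y Z)) + aeval (fun i => T (y i)) G) -
      (PP p κ t (Za - eval y Z) + aeval y G) +
      (aeval gh G - aeval (fun i => T (y i)) G - algebraMap k Ω (eval h G) + PP p κ t l) +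
      algebraMap k Ω (eval h G) +
      PP p κ t (T (eval y Z) + eval (pt h) Z - eval gh Z - l) := by
    have e1 : T Za - eval gh Z + eval (pt h) Z - (Za - eval y Z) =
        (T Za - T (eval y Z)) - (Za - eval y Z) + l +
          (T (eval y Z) + eval (pt h) Z - eval gh Z - l) := by ring
    rw [e1, PP_add, PP_add, PP_sub]
    ring
  rw [e]
  exact (((h1.sub hb).add hc).add h4).add h3

/-- **(h3), coefficientwise**: from the points of a finite grid to the coefficients. -/
theorem h3_grid (hk : Ctx0 k v) {S : Finset k} {G : MvPolynomial (Fin 2) k}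
    {ζ : MvPolynomial (Fin 2) Ω} {y : Fin 2 → Ω} {Φ : Polynomial Ω} {a b : ℕ}
    (hζ : ζ.totalDegree ≤ a) (hΦ : Φ.natDegree ≤ b)
    (hS : max (p ^ (t + 1) * a) (G.totalDegree * (b + 1)) < S.card) {ρ : ℝ}
    (hρ : ρ ≤ 0) {ζh : (Fin 2 → k) → Ω}
    (hpt : ∀ h : Fin 2 → k, (∀ i, h i ∈ S) → v.Ge 0 (ζh h - eval (pt h) ζ))
    (h3 : ∀ h : Fin 2 → k, (∀ i, h i ∈ S) →
      v.Ge ρ (PP p κ t (ζh h) + aeval (yh y Φ h) G - aeval y G)) (β : Ex) :
    v.Ge ρ (coeff β (PP p κ t ζ + rt k y Φ G - C (aeval y G))) := by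
  have hp1 : 1 ≤ p := (Fact.out : p.Prime).one_lt.le
  refine ge_grid hk (n := S.card) le_rfl (lt_of_totalDegree ?_) (fun h hh => ?_) β
  · refine lt_of_le_of_lt ?_ hS
    refine (totalDegree_sub _ _).trans (max_le ((totalDegree_add _ _).trans (max_le_max ?_ ?_)) ?_)
    · exact (totalDegree_PP _ hp1).trans (Nat.mul_le_mul_left _ hζ)
    · exact totalDegree_rt hΦ G
    · rw [totalDegree_C]; exact Nat.zero_le _
  · have h1 := h3 h hh
    have h2 := (ge_PP0 (p := p) (κ := κ) (t := t) hk (hpt h hh)).mono hρ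
    have e : eval (pt h) (PP p κ t ζ + rt k y Φ G - C (aeval y G)) =
        (PP p κ t (ζh h) + aeval (yh y Φ h) G - aeval y G) -
          PP p κ t (ζh h - eval (pt h) ζ) := by
      rw [map_sub, map_add, eval_rt, eval_C, eval_PP', PP_sub]
      ring
    rw [e]
    exact h1.sub h2

end PP

/-- The bound for `N(y h)`, coefficientwise. -/
theorem gtN_grid (hk : Ctx0 k v) {S : Finset k} {N : MvPolynomial (Fin 2) k}
    {y : Fin 2 → Ω} {Φ : Polynomial Ω} {b : ℕ} (hΦ : Φ.natDegree ≤ b)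
    (hS : N.totalDegree * (b + 1) < S.card) {ρ : ℝ}
    (h : ∀ h : Fin 2 → k, (∀ i, h i ∈ S) → Gt v ρ (aeval (yh y Φ h) N)) (β : Ex) :
    Gt v ρ (coeff β (rt k y Φ N)) :=
  gt_grid hk (n := S.card) le_rfl
    (lt_of_totalDegree (lt_of_le_of_lt (totalDegree_rt hΦ N) hS))
    (fun c hc => by rw [eval_rt]; exact h c hc) β

end Pool.Agent.TWH3
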