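import Pool.Agent.Lib.TWRZ.Exu
import Pool.Agent.Lib.TWCT.ConS
import Pool.Agent.Lib.TWH3.H3

/-!
# The exact position of a strict motion

`FrU`: `C = cl W(w)`, the floor `u` over `C`, `T₂ (s, c) : w ↦ w + s, u ↦ u + U s + c`,
`U s = δ(s, -x - s)`, `x = w - w₀`. `Φ` a strict motion of `C`, `Φ x = x + X`, `X ∈ W`.
* `Ld`: the function `δ` with arguments in `Ω`; `Ld_cocy`;
* `exists_gam`: `Y = y₀ + δ(-x - X, X)`, `y₀ ∈ W`, is a displacement of `u`;
* `gam_T`: `Y' = Y - U(X)` has `T s Y' - Y' = δ(X, s) - δ(s, X)` exactly;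
* `yh_eq`: `y h = h (T y)`, `y = (X, Y')`;
* `M_eq`: `U(X) + (τU)(s) - U(X + s) = δ(X, s)`, for every `Y`;
* `gam_comm`: `Φ` commutes with `T₂` on `cl C(u)`.
-/

set_option autoImplicit false

open Polynomial

namespace Pool.Agent.TWH3

open Pool.Agent.H15JM (RVal)
open Pool.Agent.D2 (Ctx0)
open Pool.Agent.D2P (clI mem_clI)
open Pool.Agent.TWM
open Pool.Agent.TWS
open Pool.Agent.TWCT (StrM eq_on_cadj SMo)
open Pool.Agent.TWRZ

universe u

variable {k Ω : Type u} [Field k] [Field Ω] [Algebra k Ω] {v : RVal Ω}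

/-! ### The cocycle with arguments in `Ω` -/

section Ld

variable {ι : Type} [Fintype ι] {F G : ι → k[X]} {δ : k → k → k}

/-- The function `∑ F_i(a) G_i(b)`. -/
noncomputable def Ld (F G : ι → k[X]) (a b : Ω) : Ω := ∑ i, aeval a (F i) * aeval b (G i)

theorem Lm_eq (F G : ι → k[X]) (s : k) (y : Ω) :
    Lm Ω F G s y = Ld F G (algebraMap k Ω s) y := by
  unfold Lm Ld
  refine Finset.sum_congr rfl fun i _ => ?_
  rw [aeval_algebraMap_apply, coe_aeval_eq_eval, eval_map, aeval_def]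

theorem Ld_k (F G : ι → k[X]) (s t : k) :
    Ld F G (algebraMap k Ω s) (algebraMap k Ω t) =
      algebraMap k Ω (∑ i, (F i).eval s * (G i).eval t) := by
  rw [← Lm_eq, Lm_k]

theorem map_Ld (T : Ω →ₐ[k] Ω) (a b : Ω) :
    T (Ld F G a b) = Ld F G (T a) (T b) := by
  unfold Ld
  rw [map_sum]
  refine Finset.sum_congr rfl fun i _ => ?_
  rw [map_mul, aeval_algHom_apply, aeval_algHom_apply]

theorem Ld_mem {L : IntermediateField k Ω} {a b : Ω} (ha : a ∈ L) (hb : b ∈ L) :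
    Ld F G a b ∈ L := by
  have h1 : ∀ {c : Ω} (_ : c ∈ L) (P : k[X]), aeval c P ∈ L := by
    intro c hc P
    have h2 : aeval c P = ((aeval (⟨c, hc⟩ : L) P : L) : Ω) := by
      have := aeval_algHom_apply L.val (⟨c, hc⟩ : L) P
      exact this
    rw [h2]
    exact Subtype.coe_prop _
  exact sum_mem fun i _ => mul_mem (h1 ha _) (h1 hb _)

theorem poly_zero [Infinite k] {P : Polynomial Ω} (h : ∀ s : k, P.eval (algebraMap k Ω s) = 0)
    (y : Ω) : P.eval y = 0 := by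
  have h1 : P = 0 := by
    refine eq_zero_of_infinite_isRoot P (Set.Infinite.mono (s := Set.range (algebraMap k Ω)) ?_
      (Set.infinite_range_of_injective (algebraMap k Ω).injective))
    rintro _ ⟨s, rfl⟩
    exact h s
  rw [h1, eval_zero]

theorem eval_aeval (P : k[X]) (y : Ω) : (P.map (algebraMap k Ω)).eval y = aeval y P := by
  rw [eval_map, aeval_def]

variable [Infinite k] (hFG : ∀ s t, δ s t = ∑ i, (F i).eval s * (G i).eval t)
  (hc : ∀ a b c : k, δ a b + δ (a + b) c = δ b c + δ a (b + c))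

include hFG hc

/-- **The cocycle relation**, arguments in `Ω`. -/
theorem Ld_cocy (a b c : Ω) :
    Ld F G a b + Ld F G (a + b) c = Ld F G b c + Ld F G a (b + c) := by
  have h1 : ∀ (a b : k) (c : Ω), Ld F G (algebraMap k Ω a) (algebraMap k Ω b) +
      Ld F G (algebraMap k Ω a + algebraMap k Ω b) c =
      Ld F G (algebraMap k Ω b) c + Ld F G (algebraMap k Ω a) (algebraMap k Ω b + c) := by
    intro a b c
    have h2 := Lm_cocy (Ω := Ω) hFG hc a b c
    rw [Lm_eq, Lm_eq, Lm_eq, map_add] at h2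
    rw [← h2, Ld_k, ← hFG]
  have h2 : ∀ (a : k) (b c : Ω), Ld F G (algebraMap k Ω a) b +
      Ld F G (algebraMap k Ω a + b) c =
      Ld F G b c + Ld F G (algebraMap k Ω a) (b + c) := by
    intro a b c
    obtain ⟨P, hP⟩ : ∃ P : Polynomial Ω, ∀ b : Ω, P.eval b = Ld F G (algebraMap k Ω a) b +
        Ld F G (algebraMap k Ω a + b) c - (Ld F G b c + Ld F G (algebraMap k Ω a) (b + c)) := by
      refine ⟨∑ i, C (aeval (algebraMap k Ω a) (F i)) * (G i).map (algebraMap k Ω) +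
        ∑ i, ((F i).map (algebraMap k Ω)).comp (C (algebraMap k Ω a) + X) * C (aeval c (G i)) -
        (∑ i, (F i).map (algebraMap k Ω) * C (aeval c (G i)) +
        ∑ i, C (aeval (algebraMap k Ω a) (F i)) * ((G i).map (algebraMap k Ω)).comp (X + C c)),
        fun b => ?_⟩
      simp only [eval_sub, eval_add, eval_finsetSum, eval_mul, eval_C, eval_comp, eval_X,
        eval_aeval, Ld]
    have h3 := poly_zero (P := P) (fun s => by rw [hP, h1, sub_self]) b
    rw [hP, sub_eq_zero] at h3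
    exact h3
  obtain ⟨P, hP⟩ : ∃ P : Polynomial Ω, ∀ a : Ω, P.eval a = Ld F G a b +
      Ld F G (a + b) c - (Ld F G b c + Ld F G a (b + c)) := by
    refine ⟨∑ i, (F i).map (algebraMap k Ω) * C (aeval b (G i)) +
      ∑ i, ((F i).map (algebraMap k Ω)).comp (X + C b) * C (aeval c (G i)) -
      (∑ i, C (aeval b (F i)) * C (aeval c (G i)) +
      ∑ i, (F i).map (algebraMap k Ω) * C (aeval (b + c) (G i))), fun a => ?_⟩
    simp only [eval_sub, eval_add, eval_finsetSum, eval_mul, eval_C, eval_comp, eval_X,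
      eval_aeval, Ld]
  have h3 := poly_zero (P := P) (fun s => by rw [hP, h2, sub_self]) a
  rw [hP, sub_eq_zero] at h3
  exact h3

/-- `(T s - 1) δ(-x - X, X) = δ(s, -x - X - s) - δ(s, -x - s)`. -/
theorem Ld_prim (x X s : Ω) :
    Ld F G (-(x + s) - X) X - Ld F G (-x - X) X =
      Ld F G s (-(x + X) - s) - Ld F G s (-x - s) := by
  have h1 := Ld_cocy hFG hc s (-x - X - s) X
  have e1 : s + (-x - X - s) = -x - X := by ring
  have e2 : -x - X - s + X = -x - s := by ring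
  have e3 : -(x + s) - X = -x - X - s := by ring
  have e4 : -(x + X) - s = -x - X - s := by ring
  rw [e1, e2] at h1
  rw [e3, e4]
  linear_combination -h1

/-- **The exact position**: `T s Y' - Y' = δ(X, s) - δ(s, X)`. -/
theorem Ld_comm (x X s : Ω) :
    (Ld F G (-(x + s) - X) X - Ld F G X (-(x + s) - X)) -
      (Ld F G (-x - X) X - Ld F G X (-x - X)) = Ld F G X s - Ld F G s X := by
  have h1 := Ld_prim hFG hc x X s
  have h2 := Ld_cocy hFG hc X s (-x - X - s)
  have h3 := Ld_cocy hFG hc s X (-x - X - s)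
  have e1 : s + (-x - X - s) = -x - X := by ring
  have e2 : X + (-x - X - s) = -x - s := by ring
  have e3 : -(x + s) - X = -x - X - s := by ring
  have e4 : -(x + X) - s = -x - X - s := by ring
  have e5 : X + s = s + X := add_comm _ _
  rw [e3, e4] at h1
  rw [e1, e5] at h2
  rw [e2] at h3
  rw [e3]
  linear_combination h1 - h2 + h3

end Ld

/-! ### Elements of `cl W(w)` which are almost fixed -/

theorem exists_near_W [IsAlgClosed Ω] [Infinite k] (h0 : Ctx0 k v) {W : IntermediateField k Ω} {w : Ω}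
    (hw : TL v W w 0) {T : k → Ω →ₐ[k] Ω} (hiso : ∀ s, IsoE v v (T s))
    (hfix : ∀ s, ∀ f ∈ W, T s f = f) (hTw : ∀ s, T s w = w + algebraMap k Ω s) {g : Ω}
    (hg : g ∈ cadj v W w) {μ : ℝ} (hμ : 0 < μ) (h : ∀ s, v.Ge μ (T s g - g)) :
    ∃ y ∈ W, v.Ge (μ / 2) (g - y) := by
  classical
  obtain ⟨q, hq, hgq⟩ := hw.dense hg μ
  -- the displacements of `q(w)`
  have hTq : ∀ s, T s (q.eval w) = q.eval (w + algebraMap k Ω s) := by
    intro s
    have h1 : q.map (T s : Ω →+* Ω) = q := by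
      ext n
      rw [coeff_map]
      exact hfix s _ (hq n)
    have h2 := hom_eval₂ q (RingHom.id Ω) (T s : Ω →+* Ω) w
    rw [RingHom.comp_id] at h2
    have h3 : T s (q.eval w) = (q.map (T s : Ω →+* Ω)).eval (T s w) := by
      rw [eval_map]
      exact h2
    rw [h3, h1, hTw]
  set Q : Polynomial Ω := q.comp (X + C w) - C (q.eval w) with hQ
  have hQk : ∀ s : k, v.Ge μ (Q.eval (algebraMap k Ω s)) := by
    intro s
    have e : Q.eval (algebraMap k Ω s) = (T s g - g) - (T s (g - q.eval w) - (g - q.eval w)) := by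
      rw [hQ, eval_sub, eval_comp, eval_add, eval_X, eval_C, eval_C, map_sub, hTq,
        add_comm (algebraMap k Ω s) w]
      ring
    rw [e]
    exact (h s).sub (((hiso s).ge_iff.2 hgq).sub hgq)
  have hQc := coeff_ge h0 hQk
  have hQ0 : Q.eval 0 = 0 := by
    rw [hQ, eval_sub, eval_comp, eval_add, eval_X, eval_C, eval_C, zero_add, sub_self]
  set n := Q.natDegree with hn
  obtain ⟨θ, hθ, hwθ⟩ := hw.lim (μ / (2 * (n + 1))) (by positivity)
  rw [zero_sub] at hwθ
  refine ⟨q.eval θ, TWM.eval_mem hq hθ, ?_⟩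
  have e : g - q.eval θ = (g - q.eval w) - Q.eval (θ - w) := by
    rw [hQ, eval_sub, eval_comp, eval_add, eval_X, eval_C, eval_C, sub_add_cancel]
    ring
  rw [e]
  refine RVal.Ge.sub (hgq.mono (by linarith)) ?_
  have hy : v.Ge (-(μ / (2 * (n + 1)))) (θ - w) := by
    have := hwθ.neg
    rwa [neg_sub] at this
  rw [eval_eq_sum_range]
  refine RVal.Ge.sum _ _ fun i hi => ?_
  have hi' : (i : ℝ) ≤ n := by
    have := Finset.mem_range.1 hi
    exact_mod_cast (by omega : i ≤ n)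
  refine ((hQc i).mul (ge_pow hy i)).mono ?_
  have hN0 : (0 : ℝ) < n + 1 := by positivity
  have h2 : (i : ℝ) * (μ / (2 * (n + 1))) ≤ μ / 2 := by
    rw [show μ / (2 * ((n : ℝ) + 1)) = (μ / 2) / (n + 1) by rw [div_div]]
    rw [← mul_div_assoc, div_le_iff₀ hN0]
    nlinarith
  linarith

/-! ### The position -/

section pos

variable {A W : IntermediateField k Ω} {w u w₀ : Ω} {T : k → Ω →ₐ[k] Ω} {U : k → Ω}
  {δ : k → k → k} {T₂ : k × k → Ω →ₐ[k] Ω} {Φ : Ω →ₐ[k] Ω} {η : ℝ} {ι : Type} [Fintype ι]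
  {F G : ι → k[X]}

/-- `Φ` commutes with the motions of `cl W(w)`. -/
theorem comm_C (hF : FrU v W w u T U δ T₂) (hiso : IsoE v v Φ) (hΦW : ∀ a ∈ W, Φ a ∈ W)
    (hX : Φ w - w ∈ W) (s : k) : ∀ f ∈ cadj v W w, T s (Φ f) = Φ (T s f) := by
  refine eq_on_cadj (isoE_comp (hF.famT.iso s) hiso) (isoE_comp hiso (hF.famT.iso s)) (A := W)
    (z := w) (fun a ha => ?_) ?_
  · rw [AlgHom.comp_apply, AlgHom.comp_apply, hF.fixW s a ha, hF.fixW s _ (hΦW a ha)]
  · have h1 := hF.fixW s _ hX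
    rw [map_sub, hF.Tw] at h1
    rw [AlgHom.comp_apply, AlgHom.comp_apply, hF.Tw, map_add, AlgHom.commutes]
    linear_combination h1

/-- **The displacement of `u`.** -/
theorem exists_gam [IsAlgClosed Ω] [Infinite k] (h0 : Ctx0 k v) (hF : FrU v W w u T U δ T₂) (hw₀ : w₀ ∈ W)
    (hFG : ∀ s t, δ s t = ∑ i, (F i).eval s * (G i).eval t)
    (hU : ∀ s, U s = Lm Ω F G s (-(w - w₀) - algebraMap k Ω s))
    (hΦ : SMo v A (cadj v W w) Φ η) (hΦW : ∀ a ∈ W, Φ a ∈ W) (hX : Φ w - w ∈ W) {X : Ω}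
    (hXe : X = Φ (w - w₀) - (w - w₀)) :
    ∃ y₀ ∈ W, ∃ c ∈ cadj v W w, v.Ge (0 - η / 2) (u - c) ∧
      Gt v 0 (y₀ + Ld F G (-(w - w₀) - X) X - (Φ c - c)) := by
  have hWC := le_cadj v W w
  have hwC := self_mem_cadj v W w
  set x := w - w₀ with hx
  have hxC : x ∈ cadj v W w := sub_mem hwC (hWC hw₀)
  have hXW : X ∈ W := by
    rw [hXe, hx, map_sub]
    have e : Φ w - Φ w₀ - (w - w₀) = (Φ w - w) - (Φ w₀ - w₀) := by ring
    rw [e]
    exact sub_mem hX (sub_mem (hΦW _ hw₀) hw₀)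
  have hΦx : Φ x = x + X := by rw [hXe]; ring
  have hTx : ∀ s, T s x = x + algebraMap k Ω s := fun s => by
    rw [hx, map_sub, hF.Tw, hF.fixW s _ hw₀]
    ring
  have hη := hΦ.pos
  obtain ⟨e, he, hatt⟩ := hF.att (η / 2) (half_pos hη)
  obtain ⟨c, hc, hc1⟩ := hF.tu.lim (min e (η / 2)) (lt_min he (half_pos hη))
  have hc2 : v.Ge (0 - e) (u - c) := hc1.mono (by linarith [min_le_left e (η / 2)])
  have hc3 : v.Ge (0 - η / 2) (u - c) := hc1.mono (by linarith [min_le_right e (η / 2)])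
  have hR := hatt c hc hc2
  rw [zero_sub] at hR
  set D := Ld F G (-x - X) X with hD
  have hDC : D ∈ cadj v W w := Ld_mem (sub_mem (neg_mem hxC) (hWC hXW)) (hWC hXW)
  have hgC : Φ c - c - D ∈ cadj v W w := sub_mem (sub_mem (hΦ.mem hc) hc) hDC
  have hU' : ∀ s, U s = Ld F G (algebraMap k Ω s) (-x - algebraMap k Ω s) := fun s => by
    rw [hU, Lm_eq]
  have key : ∀ s, v.Ge (η / 2) (T s (Φ c - c - D) - (Φ c - c - D)) := by
    intro s
    have h1 : T s D - D = Φ (U s) - U s := by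
      rw [hD, map_Ld, map_sub, map_neg, hTx, hF.fixW s X hXW, hU', map_Ld, map_sub, map_neg,
        hΦx, AlgHom.commutes]
      exact Ld_prim hFG hF.cocy x X (algebraMap k Ω s)
    have h2 : T s (Φ c) = Φ (T s c) := comm_C hF hΦ.iso hΦW hX s c hc
    have h3 : T s (Φ c - c - D) - (Φ c - c - D) =
        Φ (T s c - c - U s) - (T s c - c - U s) := by
      rw [map_sub, map_sub, h2, map_sub Φ, map_sub Φ]
      linear_combination -h1
    rw [h3]
    have h4 := hΦ.str _ (sub_mem (sub_mem (hF.famT.mem s c hc) hc) (hF.pol.mem s)) _ (hR s)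
    exact h4.mono (by linarith)
  obtain ⟨y₀, hy₀, h5⟩ := exists_near_W h0 hF.tw hF.famT.iso hF.fixW hF.Tw hgC (half_pos hη) key
  refine ⟨y₀, hy₀, c, hc, hc3, ?_⟩
  have e1 : y₀ + D - (Φ c - c) = -(Φ c - c - D - y₀) := by ring
  rw [e1]
  exact Gt.of_ge h5.neg (by linarith)

/-- `Y' = Y - U(X)`. -/
noncomputable def Yp (F G : ι → k[X]) (x X y₀ : Ω) : Ω :=
  y₀ + Ld F G (-x - X) X - Ld F G X (-x - X)

/-- **`T s Y' = Y' + δ(X, s) - δ(s, X)`.** -/
theorem gam_T [Infinite k] (hFG : ∀ s t, δ s t = ∑ i, (F i).eval s * (G i).eval t)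
    (hc : ∀ a b c : k, δ a b + δ (a + b) c = δ b c + δ a (b + c)) {T : Ω →ₐ[k] Ω} {x X y₀ : Ω}
    {s : k} (hTx : T x = x + algebraMap k Ω s) (hTX : T X = X) (hTy : T y₀ = y₀) :
    T (Yp F G x X y₀) = Yp F G x X y₀ + Ld F G X (algebraMap k Ω s) -
      Ld F G (algebraMap k Ω s) X := by
  have h1 := Ld_comm hFG hc x X (algebraMap k Ω s)
  unfold Yp
  rw [map_sub, map_add, hTy, map_Ld, map_Ld, map_sub, map_neg, hTx, hTX]
  linear_combination h1

/-- `LAM(X, ·)`. -/
noncomputable def LamX (F G : ι → k[X]) (X : Ω) : Polynomial Ω :=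
  ∑ i, C (aeval X (F i)) * (G i).map (algebraMap k Ω)

theorem eval_LamX (X y : Ω) : (LamX F G X).eval y = Ld F G X y := by
  simp only [LamX, eval_finsetSum, eval_mul, eval_C, eval_aeval, Ld]

theorem natDegree_LamX (X : Ω) : (LamX F G X).natDegree ≤ ∑ i, (G i).natDegree := by
  unfold LamX
  refine natDegree_sum_le_of_forall_le _ _ fun i _ => ?_
  refine (natDegree_C_mul_le _ _).trans (natDegree_map_le.trans ?_)
  exact Finset.single_le_sum (f := fun i => (G i).natDegree) (fun _ _ => Nat.zero_le _)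
    (Finset.mem_univ i)

/-- `U(s) = δ(s, -x - s)`, as a polynomial in `s`. -/
noncomputable def Upol (F G : ι → k[X]) (x : Ω) : Polynomial Ω :=
  ∑ i, (F i).map (algebraMap k Ω) * ((G i).map (algebraMap k Ω)).comp (C (-x) - X)

theorem eval_Upol (x s : Ω) : (Upol F G x).eval s = Ld F G s (-x - s) := by
  simp only [Upol, eval_finsetSum, eval_mul, eval_comp, eval_sub, eval_C, eval_X, eval_aeval, Ld]

/-- **`U(X) + (τU)(s) - U(X + s) = δ(X, s)`** exactly, `τ x = x + X`. -/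
theorem M_eq [Infinite k] (hFG : ∀ s t, δ s t = ∑ i, (F i).eval s * (G i).eval t)
    (hc : ∀ a b c : k, δ a b + δ (a + b) c = δ b c + δ a (b + c)) (x X : Ω) :
    C ((Upol F G x).eval X) + Upol F G (x + X) - (Upol F G x).comp (C X + Polynomial.X) =
      LamX F G X := by
  have h1 : ∀ s : Ω, (C ((Upol F G x).eval X) + Upol F G (x + X) -
      (Upol F G x).comp (C X + Polynomial.X) - LamX F G X).eval s = 0 := by
    intro s
    simp only [eval_sub, eval_add, eval_C, eval_comp, eval_X, eval_Upol, eval_LamX]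
    have h2 := Ld_cocy hFG hc X s (-x - X - s)
    have e1 : s + (-x - X - s) = -x - X := by ring
    have e2 : -x - (X + s) = -x - X - s := by ring
    have e3 : -(x + X) - s = -x - X - s := by ring
    rw [e1] at h2
    rw [e2, e3]
    linear_combination -h2
  have : Infinite Ω := Infinite.of_injective _ (algebraMap k Ω).injective
  exact sub_eq_zero.1 (Polynomial.funext fun s => by rw [h1, eval_zero])

/-- The coefficients of `δ(X, ·)` are in `k[X]`. -/
theorem coeff_LamX (X : Ω) (j : ℕ) :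
    (LamX F G X).coeff j = aeval X (∑ i, C ((G i).coeff j) * F i) := by
  unfold LamX
  rw [finsetSum_coeff, map_sum]
  refine Finset.sum_congr rfl fun i _ => ?_
  rw [coeff_C_mul, coeff_map, map_mul, aeval_C, mul_comm]

/-- **`y h = h (T y)`**, `y = (X, Y')`. -/
theorem yh_eq [Infinite k] (hFG : ∀ s t, δ s t = ∑ i, (F i).eval s * (G i).eval t)
    (hc : ∀ a b c : k, δ a b + δ (a + b) c = δ b c + δ a (b + c)) {T : Ω →ₐ[k] Ω} {x X y₀ : Ω}
    {h : Fin 2 → k} (hTx : T x = x + algebraMap k Ω (h 0)) (hTX : T X = X) (hTy : T y₀ = y₀) :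
    yh ![X, Yp F G x X y₀] (LamX F G X) h =
      ![algebraMap k Ω (h 0) + T X, algebraMap k Ω (h 1) + T (Yp F G x X y₀) +
        Ld F G (algebraMap k Ω (h 0)) (T X)] := by
  rw [gam_T hFG hc hTx hTX hTy, hTX]
  unfold yh
  rw [eval_LamX]
  funext i
  fin_cases i
  · rfl
  · simp only [Fin.mk_one, Matrix.cons_val_one, Matrix.cons_val_fin_one]
    ring

/-- **`Φ` commutes with the group of the frame.** -/
theorem gam_comm [Infinite k] (hF : FrU v W w u T U δ T₂) (hw₀ : w₀ ∈ W)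
    (hFG : ∀ s t, δ s t = ∑ i, (F i).eval s * (G i).eval t)
    (hU : ∀ s, U s = Lm Ω F G s (-(w - w₀) - algebraMap k Ω s)) {Ψ : Ω →ₐ[k] Ω}
    (hΨ : IsoE v v Ψ) (hΨC : ∀ f ∈ cadj v W w, Ψ f ∈ cadj v W w) (hΨW : ∀ a ∈ W, Ψ a ∈ W)
    (hX : Ψ w - w ∈ W) {X y₀ : Ω} (hXe : X = Ψ (w - w₀) - (w - w₀)) (hy₀ : y₀ ∈ W)
    (hΨu : Ψ u = u + (y₀ + Ld F G (-(w - w₀) - X) X)) (y : k × k) :
    ∀ f ∈ cadj v (cadj v W w) u, T₂ y (Ψ f) = Ψ (T₂ y f) := by
  have hWC := le_cadj v W w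
  have hwC := self_mem_cadj v W w
  have hXW : X ∈ W := by
    rw [hXe, map_sub]
    have e : Ψ w - Ψ w₀ - (w - w₀) = (Ψ w - w) - (Ψ w₀ - w₀) := by ring
    rw [e]
    exact sub_mem hX (sub_mem (hΨW _ hw₀) hw₀)
  set x := w - w₀ with hx
  have hxC : x ∈ cadj v W w := sub_mem hwC (hWC hw₀)
  have hΨx : Ψ x = x + X := by rw [hXe]; ring
  have hTx : ∀ s, T s x = x + algebraMap k Ω s := fun s => by
    rw [hx, map_sub, hF.Tw, hF.fixW s _ hw₀]
    ring
  have hU' : ∀ s, U s = Ld F G (algebraMap k Ω s) (-x - algebraMap k Ω s) := fun s => by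
    rw [hU, Lm_eq]
  have hDC : Ld F G (-x - X) X ∈ cadj v W w :=
    Ld_mem (sub_mem (neg_mem hxC) (hWC hXW)) (hWC hXW)
  refine eq_on_cadj (isoE_comp (hF.fam.iso y) hΨ) (isoE_comp hΨ (hF.fam.iso y))
    (A := cadj v W w) (z := u) (fun a ha => ?_) ?_
  · rw [AlgHom.comp_apply, AlgHom.comp_apply, hF.res y a ha, hF.res y _ (hΨC a ha)]
    exact comm_C hF hΨ hΨW hX y.1 a ha
  · rw [AlgHom.comp_apply, AlgHom.comp_apply, hΨu, map_add, map_add, hF.Tu, hF.res y _ (hWC hy₀),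
      hF.fixW _ _ hy₀, hF.res y _ hDC, map_add, map_add, hΨu, AlgHom.commutes]
    have h1 : T y.1 (Ld F G (-x - X) X) - Ld F G (-x - X) X = Ψ (U y.1) - U y.1 := by
      rw [map_Ld, map_sub, map_neg, hTx, hF.fixW y.1 X hXW, hU', map_Ld, map_sub, map_neg,
        hΨx, AlgHom.commutes]
      exact Ld_prim hFG hF.cocy x X (algebraMap k Ω y.1)
    linear_combination h1

end pos

end Pool.Agent.TWH3
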