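import Pool.Agent.Lib.TWCY.Rs
import Mathlib.Combinatorics.Nullstellensatz

/-!
# Values and coefficients on a finite grid

`ge_grid`, `gt_grid`: a polynomial with exponents `< n` and value `≥ r` (`> r`) at the points of
`S × S`, `n ≤ |S|`, `S ⊂ k`, has coefficients of value `≥ r` (`> r`).
-/

set_option autoImplicit false

open MvPolynomial

namespace Pool.Agent.TWH3

open Pool.Agent.H15JM (RVal)
open Pool.Agent.LU1 (VPos)
open Pool.Agent.D2 (Ctx0)
open Pool.Agent.TWM
open Pool.Agent.TWS (IsoE)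
open Pool.Agent.TWLY
open Pool.Agent.TWCY

universe u

variable {k Ω : Type u} [Field k] [Field Ω] [Algebra k Ω] {v : RVal Ω}

/-- The residue polynomial, with its support. -/
theorem exists_rs_sub (hk : Ctx0 k v) {f : MvPolynomial (Fin 2) Ω}
    (hf : ∀ g, v.Ge 0 (coeff g f)) :
    ∃ G : MvPolynomial (Fin 2) k, (∀ g, Rs v (coeff g f) (coeff g G)) ∧ G.support ⊆ f.support := by
  obtain ⟨G, hG⟩ := exists_rs hk hf
  refine ⟨G, hG, fun g hg => ?_⟩
  rw [mem_support_iff] at hg ⊢
  intro h0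
  refine hg ?_
  have h1 := hG g
  rw [h0] at h1
  exact Rs.unique hk h1 Rs.zero

theorem eq_zero_of_grid {S : Finset k} {n : ℕ} (hS : n ≤ S.card) {G : MvPolynomial (Fin 2) k}
    (hn : ∀ m ∈ G.support, ∀ i, m i < n)
    (h : ∀ c : Fin 2 → k, (∀ i, c i ∈ S) → eval c G = 0) : G = 0 := by
  by_contra h0
  refine h0 (eq_zero_of_eval_zero_at_prod_finset G (fun _ => S) (fun i => ?_) h)
  have hn0 : 0 < n := by
    obtain ⟨m, hm⟩ := support_nonempty.2 h0
    exact lt_of_le_of_lt (Nat.zero_le _) (hn m hm i)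
  refine lt_of_lt_of_le ?_ hS
  rw [degreeOf_lt_iff hn0]
  exact fun m hm => hn m hm i

/-- **Values and coefficients on a grid.** -/
theorem ge_grid (hk : Ctx0 k v) {S : Finset k} {n : ℕ} (hS : n ≤ S.card) {r : ℝ}
    {f : MvPolynomial (Fin 2) Ω} (hn : ∀ m ∈ f.support, ∀ i, m i < n)
    (hf : ∀ c : Fin 2 → k, (∀ i, c i ∈ S) → v.Ge r (eval (pt c) f)) (g : Ex) :
    v.Ge r (coeff g f) := by
  classical
  by_contra hcon
  have hg0 : coeff g f ≠ 0 ∧ v (coeff g f) < r := by
    unfold RVal.Ge at hcon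
    push Not at hcon
    exact hcon
  have hne : f.support.Nonempty := ⟨g, mem_support_iff.2 hg0.1⟩
  obtain ⟨m, hm, hmin⟩ := f.support.exists_min_image (fun g => v (coeff g f)) hne
  have hm0 : coeff m f ≠ 0 := mem_support_iff.1 hm
  have hmr : v (coeff m f) < r := (hmin g (mem_support_iff.2 hg0.1)).trans_lt hg0.2
  set t := coeff m f with ht
  set f' : MvPolynomial (Fin 2) Ω := C t⁻¹ * f with hf'
  have hc : ∀ g, coeff g f' = t⁻¹ * coeff g f := fun g => by rw [hf', coeff_C_mul]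
  have hsup : f'.support ⊆ f.support := fun g hg => by
    rw [mem_support_iff, hc] at hg
    exact mem_support_iff.2 (right_ne_zero_of_mul hg)
  have h1 : ∀ g, v.Ge 0 (coeff g f') := by
    intro g h0
    rw [hc] at h0 ⊢
    have hg1 : coeff g f ≠ 0 := right_ne_zero_of_mul h0
    rw [v.map_mul (inv_ne_zero hm0) hg1, v.map_inv hm0]
    have := hmin g (mem_support_iff.2 hg1)
    linarith
  obtain ⟨G, hG, hGs⟩ := exists_rs_sub hk h1
  have hG0 : G ≠ 0 := by
    rintro rfl
    have h2 := hG m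
    rw [hc, ← ht, inv_mul_cancel₀ hm0, coeff_zero] at h2
    have := Rs.unique hk h2 Rs.one
    exact zero_ne_one this
  obtain ⟨c, hcS, hcG⟩ : ∃ c : Fin 2 → k, (∀ i, c i ∈ S) ∧ eval c G ≠ 0 := by
    by_contra hall
    push Not at hall
    exact hG0 (eq_zero_of_grid hS (fun m hm => hn m (hsup (hGs hm))) hall)
  have h3 := rs_eval hk hG c
  have h4 : eval (pt c) f' = t⁻¹ * eval (pt c) f := by rw [hf', map_mul, eval_C]
  have h5 : eval (pt (Ω := Ω) c) f' ≠ 0 := by
    intro h0
    rw [h0] at h3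
    exact hcG (Rs.unique hk h3 Rs.zero)
  have h6 : v (eval (pt (Ω := Ω) c) f') ≤ 0 := by
    by_contra h7
    push Not at h7
    have h8 : Rs v (eval (pt (Ω := Ω) c) f') (0 : k) := rs_zero_iff.2 fun _ => h7
    exact hcG (Rs.unique hk h3 h8)
  rw [h4] at h5 h6
  have h7 : eval (pt (Ω := Ω) c) f ≠ 0 := right_ne_zero_of_mul h5
  rw [v.map_mul (inv_ne_zero hm0) h7, v.map_inv hm0] at h6
  have h8 := hf c hcS h7
  linarith

/-- A finite family of values `> r`. -/
theorem exists_margin {κ : Type*} (S : Finset κ) {m : κ → Ω} {r : ℝ}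
    (hm : ∀ j ∈ S, Gt v r (m j)) : ∃ ε : ℝ, 0 < ε ∧ ∀ j ∈ S, v.Ge (r + ε) (m j) := by
  classical
  induction S using Finset.induction_on with
  | empty => exact ⟨1, one_pos, fun j hj => absurd hj (Finset.notMem_empty j)⟩
  | insert i S hi ih =>
    obtain ⟨ε, hε, h1⟩ := ih fun j hj => hm j (Finset.mem_insert_of_mem hj)
    by_cases h0 : m i = 0
    · refine ⟨ε, hε, fun j hj => ?_⟩
      rcases Finset.mem_insert.1 hj with rfl | hj
      · rw [h0]; exact RVal.Ge.zero
      · exact h1 j hj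
    · have h2 := hm i (Finset.mem_insert_self i S) h0
      refine ⟨min ε (v (m i) - r), lt_min hε (by linarith), fun j hj => ?_⟩
      rcases Finset.mem_insert.1 hj with rfl | hj
      · intro _
        have := min_le_right ε (v (m j) - r)
        linarith
      · exact (h1 j hj).mono (by
          have := min_le_left ε (v (m i) - r)
          linarith)

theorem gt_grid (hk : Ctx0 k v) {S : Finset k} {n : ℕ} (hS : n ≤ S.card) {r : ℝ}
    {f : MvPolynomial (Fin 2) Ω} (hn : ∀ m ∈ f.support, ∀ i, m i < n)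
    (hf : ∀ c : Fin 2 → k, (∀ i, c i ∈ S) → Gt v r (eval (pt c) f)) (g : Ex) :
    Gt v r (coeff g f) := by
  classical
  obtain ⟨ε, hε, h1⟩ := exists_margin (Fintype.piFinset fun _ : Fin 2 => S)
    (m := fun c : Fin 2 → k => eval (pt (Ω := Ω) c) f)
    fun c hc => hf c fun i => Fintype.mem_piFinset.1 hc i
  have h2 := ge_grid hk hS hn (fun c hc => h1 c (Fintype.mem_piFinset.2 hc)) g
  exact Gt.of_ge h2 (by linarith)

end Pool.Agent.TWH3
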